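import Mathlib

set_option autoImplicit false

/-!
# MP_e4a648_co: every monotone sequence is a domination sequence
-/

namespace Pool.Agent.Results.MP_e4a648_co.AllSequences

open Finset

/-- `X` is a dominating set: every vertex outside `X` has a neighbour in `X`. -/
def Dominating {V : Type} (G : SimpleGraph V) (X : Finset V) : Prop :=
  ∀ v, v ∉ X → ∃ u ∈ X, G.Adj v u

/-- The domination number: the least size of a dominating set. -/
noncomputable def gamma {V : Type} (G : SimpleGraph V) : ℕ :=
  sInf {k | ∃ X : Finset V, Dominating G X ∧ X.card = k}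

/-- `X` is a `k`-minimal dominating set: it is dominating, and for every `1 ≤ ℓ ≤ k`, every
`ℓ`-element subset `U` of `X` and every `(ℓ - 1)`-element set `R` of vertices, the set
`(X \ U) ∪ R` is not dominating. -/
def KMDS {V : Type} [DecidableEq V] (G : SimpleGraph V) (k : ℕ) (X : Finset V) : Prop :=
  Dominating G X ∧ ∀ ℓ, 1 ≤ ℓ → ℓ ≤ k → ∀ U R : Finset V, U ⊆ X → U.card = ℓ →
    R.card = ℓ - 1 → ¬ Dominating G ((X \ U) ∪ R)

/-- `Γ_k(G)`: the largest size of a `k`-minimal dominating set. -/
noncomputable def Gam {V : Type} [DecidableEq V] (G : SimpleGraph V) (k : ℕ) : ℕ :=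
  sSup {m | ∃ X : Finset V, KMDS G k X ∧ X.card = m}

/-- The sequence `m 1, …, m r` is a domination sequence: some finite graph `G` satisfies
`γ(G) = r` and `Γ_k(G) = m k` for `k = 1, …, r`. -/
def IsDominationSequence (r : ℕ) (m : ℕ → ℕ) : Prop :=
  ∃ (V : Type) (_ : Fintype V) (_ : DecidableEq V) (G : SimpleGraph V),
    gamma G = r ∧ ∀ k, 1 ≤ k → k ≤ r → Gam G k = m k

theorem dom_mono {V : Type} {G : SimpleGraph V} {X Y : Finset V} (h : Dominating G X)
    (hXY : X ⊆ Y) : Dominating G Y := by
  intro v hv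
  obtain ⟨u, hu, hadj⟩ := h v (fun h' => hv (hXY h'))
  exact ⟨u, hXY hu, hadj⟩

/-- A convenient form of `k`-minimality. -/
def KM {V : Type} [DecidableEq V] (G : SimpleGraph V) (k : ℕ) (X : Finset V) : Prop :=
  Dominating G X ∧ ∀ U R : Finset V, U ⊆ X → U.card ≤ k → R.card < U.card →
    ¬ Dominating G ((X \ U) ∪ R)

theorem kmds_iff {V : Type} [Fintype V] [DecidableEq V] (G : SimpleGraph V) (k : ℕ)
    (X : Finset V) : KMDS G k X ↔ KM G k X := by
  constructor
  · rintro ⟨h1, h2⟩
    refine ⟨h1, fun U R hU hUk hR hdom => ?_⟩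
    have hc : U.card ≤ Fintype.card V := card_le_univ U
    obtain ⟨R', hR', hR'c⟩ := Finset.exists_superset_card_eq (s := R) (n := U.card - 1)
      (by omega) (by omega)
    refine h2 U.card (by omega) hUk U R' hU rfl hR'c (dom_mono hdom ?_)
    exact union_subset_union (Finset.Subset.refl _) hR'
  · rintro ⟨h1, h2⟩
    refine ⟨h1, fun ℓ hℓ1 hℓk U R hU hUc hRc => ?_⟩
    exact h2 U R hU (by omega) (by omega)

/-- Relational version of all the parameters. -/
def Rel {V : Type} [Fintype V] [DecidableEq V] (G : SimpleGraph V) (r : ℕ) (m : ℕ → ℕ) : Prop :=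
  (∃ X, Dominating G X ∧ X.card = r) ∧ (∀ X, Dominating G X → r ≤ X.card) ∧
  ∀ k, 1 ≤ k → (∃ X, KM G k X ∧ X.card = m k) ∧ ∀ X, KM G k X → X.card ≤ m k

theorem min_km {V : Type} [Fintype V] [DecidableEq V] (G : SimpleGraph V) (r k : ℕ)
    (X : Finset V) (hX : Dominating G X) (hc : X.card = r)
    (hmin : ∀ X, Dominating G X → r ≤ X.card) : KM G k X := by
  refine ⟨hX, fun U R hU _ hR hdom => ?_⟩
  have h1 := hmin _ hdom
  have h2 := card_union_le (X \ U) R
  have h3 := card_sdiff_add_card_eq_card hU
  omega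

theorem km_large {V : Type} [Fintype V] [DecidableEq V] (G : SimpleGraph V) (r k : ℕ)
    (D : Finset V) (hD : Dominating G D) (hc : D.card = r) (hk : r < k)
    (X : Finset V) (hX : KM G k X) : X.card ≤ r := by
  by_contra hcon
  push Not at hcon
  obtain ⟨U, hU, hUc⟩ := Finset.exists_subset_card_eq (s := X) (n := r + 1) hcon
  exact hX.2 U D hU (by omega) (by omega) (dom_mono hD subset_union_right)

/-! ### Adding isolated vertices -/

/-- `G` together with `t` isolated vertices. -/
def addIso {V : Type} (G : SimpleGraph V) (t : ℕ) : SimpleGraph (V ⊕ Fin t) where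
  Adj x y := ∃ a b, x = Sum.inl a ∧ y = Sum.inl b ∧ G.Adj a b
  symm := ⟨by
    rintro x y ⟨a, b, h1, h2, h3⟩
    exact ⟨b, a, h2, h1, h3.symm⟩⟩
  loopless := ⟨by
    rintro x ⟨a, b, h1, h2, h3⟩
    have : a = b := Sum.inl_injective (h1.symm.trans h2)
    subst this
    exact G.irrefl h3⟩

theorem addIso_dom {V : Type} [DecidableEq V] (G : SimpleGraph V) (t : ℕ)
    (X : Finset (V ⊕ Fin t)) :
    Dominating (addIso G t) X ↔ Dominating G X.toLeft ∧ ∀ i, Sum.inr i ∈ X := by
  constructor
  · intro h
    refine ⟨fun v hv => ?_, fun i => ?_⟩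
    · rw [mem_toLeft] at hv
      obtain ⟨u, hu, a, b, h1, h2, h3⟩ := h _ hv
      have : v = a := Sum.inl_injective h1
      subst this
      subst h2
      exact ⟨b, mem_toLeft.2 hu, h3⟩
    · by_contra hcon
      obtain ⟨u, hu, a, b, h1, h2, h3⟩ := h _ hcon
      exact absurd h1 (by simp)
  · rintro ⟨h1, h2⟩ v hv
    rcases v with v | i
    · obtain ⟨u, hu, hadj⟩ := h1 v (by rwa [mem_toLeft])
      exact ⟨Sum.inl u, mem_toLeft.1 hu, v, u, rfl, rfl, hadj⟩
    · exact absurd (h2 i) hv

theorem addIso_rel {V : Type} [Fintype V] [DecidableEq V] (G : SimpleGraph V) (r : ℕ) (m : ℕ → ℕ)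
    (t : ℕ) (h : Rel G r m) : Rel (addIso G t) (r + t) (fun k => m k + t) := by
  obtain ⟨⟨X0, hX0, hX0c⟩, hmin, hk⟩ := h
  have hright : ∀ X : Finset (V ⊕ Fin t), (∀ i, Sum.inr i ∈ X) → X.toRight.card = t := by
    intro X hX
    have : X.toRight = univ := by
      ext i
      simp [mem_toRight, hX i]
    rw [this, card_univ, Fintype.card_fin]
  have hcard : ∀ X : Finset (V ⊕ Fin t), (∀ i, Sum.inr i ∈ X) → X.card = X.toLeft.card + t := by
    intro X hX
    rw [← card_toLeft_add_card_toRight, hright X hX]
  refine ⟨⟨X0.disjSum univ, ?_, ?_⟩, ?_, ?_⟩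
  · rw [addIso_dom]
    refine ⟨?_, fun i => by simp⟩
    rw [toLeft_disjSum]
    exact hX0
  · rw [card_disjSum, hX0c, card_univ, Fintype.card_fin]
  · intro X hX
    rw [addIso_dom] at hX
    rw [hcard X hX.2]
    have := hmin _ hX.1
    omega
  · intro k hk1
    obtain ⟨⟨X1, hX1, hX1c⟩, hup⟩ := hk k hk1
    refine ⟨⟨X1.disjSum univ, ⟨?_, ?_⟩, ?_⟩, ?_⟩
    · rw [addIso_dom]
      refine ⟨?_, fun i => by simp⟩
      rw [toLeft_disjSum]
      exact hX1.1
    · intro U R hU hUk hR hdom
      rw [addIso_dom] at hdom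
      obtain ⟨hd1, hd2⟩ := hdom
      have hsub : U.toRight ⊆ R.toRight := by
        intro i hi
        rw [mem_toRight] at hi ⊢
        have := hd2 i
        rw [mem_union, mem_sdiff] at this
        rcases this with h | h
        · exact absurd hi h.2
        · exact h
      have h1 := card_le_card hsub
      have h2 := card_toLeft_add_card_toRight (u := U)
      have h3 := card_toLeft_add_card_toRight (u := R)
      refine hX1.2 U.toLeft R.toLeft ?_ (by omega) (by omega) (dom_mono hd1 ?_)
      · intro v hv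
        rw [mem_toLeft] at hv
        simpa using hU hv
      · intro v hv
        rw [mem_toLeft, mem_union, mem_sdiff] at hv
        rw [mem_union, mem_sdiff, mem_toLeft, mem_toLeft]
        rcases hv with h | h
        · left
          refine ⟨by simpa using h.1, h.2⟩
        · exact Or.inr h
    · rw [card_disjSum, hX1c, card_univ, Fintype.card_fin]
    · intro X hX
      obtain ⟨hX1, hX2⟩ := hX
      rw [addIso_dom] at hX1
      rw [hcard X hX1.2]
      have : KM G k X.toLeft := by
        refine ⟨hX1.1, fun U R hU hUk hR hdom => ?_⟩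
        refine hX2 (U.map Function.Embedding.inl) (R.map Function.Embedding.inl) ?_
          (by rwa [card_map]) (by rwa [card_map, card_map]) ?_
        · intro x hx
          rw [mem_map] at hx
          obtain ⟨v, hv, rfl⟩ := hx
          exact mem_toLeft.1 (hU hv)
        · rw [addIso_dom]
          constructor
          · refine dom_mono hdom ?_
            intro v hv
            rw [mem_toLeft, mem_union, mem_sdiff]
            rw [mem_union, mem_sdiff, mem_toLeft] at hv
            rcases hv with h | h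
            · left
              refine ⟨h.1, fun h' => h.2 ?_⟩
              rw [mem_map] at h'
              obtain ⟨v', hv', he⟩ := h'
              have : v' = v := Sum.inl_injective he
              exact this ▸ hv'
            · right
              rw [mem_map]
              exact ⟨v, h, rfl⟩
          · intro i
            rw [mem_union, mem_sdiff]
            left
            refine ⟨hX1.2 i, fun h' => ?_⟩
            rw [mem_map] at h'
            obtain ⟨v', _, he⟩ := h'
            exact absurd he (by simp)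
      have := hup _ this
      show X.toLeft.card + t ≤ m k + t
      omega

/-! ### The blow-up -/

section blow

variable {V : Type} [DecidableEq V]

/-- Projection to the old graph. -/
def pr (q : ℕ) (w : V) : (V × Fin q) ⊕ Fin q → V
  | Sum.inl x => x.1
  | Sum.inr _ => w

/-- The blow-up: every vertex `v` becomes a clique `(v, 0), …, (v, q - 1)`; there are `q` further
vertices `d_0, …, d_{q-1}` placed in the clique of `w`, and `d_j` is moreover adjacent to all
`(v, j)`. -/
def blow (G : SimpleGraph V) (q : ℕ) (w : V) : SimpleGraph ((V × Fin q) ⊕ Fin q) where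
  Adj x y := x ≠ y ∧ (pr q w x = pr q w y ∨ G.Adj (pr q w x) (pr q w y) ∨
    (∃ v j, x = Sum.inl (v, j) ∧ y = Sum.inr j) ∨ (∃ v j, y = Sum.inl (v, j) ∧ x = Sum.inr j))
  symm := ⟨by
    rintro x y ⟨h1, h2⟩
    refine ⟨h1.symm, ?_⟩
    rcases h2 with h | h | h | h
    · exact Or.inl h.symm
    · exact Or.inr (Or.inl h.symm)
    · exact Or.inr (Or.inr (Or.inr h))
    · exact Or.inr (Or.inr (Or.inl h))⟩
  loopless := ⟨by
    rintro x ⟨h1, _⟩
    exact h1 rfl⟩

theorem blow_dom (G : SimpleGraph V) (q : ℕ) (w : V) (S : Finset ((V × Fin q) ⊕ Fin q)) :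
    Dominating (blow G q w) S ↔ (∀ j, Sum.inr j ∈ S) ∨ Dominating G (S.image (pr q w)) := by
  constructor
  · intro h
    by_cases hall : ∀ j, Sum.inr j ∈ S
    · exact Or.inl hall
    right
    push Not at hall
    obtain ⟨j, hj⟩ := hall
    intro v hv
    have hvj : (Sum.inl (v, j) : (V × Fin q) ⊕ Fin q) ∉ S := by
      intro h'
      apply hv
      rw [mem_image]
      exact ⟨_, h', rfl⟩
    obtain ⟨y, hy, hne, hcase⟩ := h _ hvj
    rcases hcase with h1 | h1 | ⟨v', j', h1, h2⟩ | ⟨v', j', h1, h2⟩
    · exfalso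
      apply hv
      rw [mem_image]
      exact ⟨y, hy, h1.symm⟩
    · exact ⟨_, mem_image_of_mem _ hy, h1⟩
    · exfalso
      have h3 := Sum.inl_injective h1
      rw [Prod.mk.injEq] at h3
      rw [h2, ← h3.2] at hy
      exact hj hy
    · exact absurd h2 (by simp)
  · rintro (h | h)
    · intro x hx
      rcases x with ⟨v, j⟩ | j
      · exact ⟨Sum.inr j, h j, by simp, Or.inr (Or.inr (Or.inl ⟨v, j, rfl, rfl⟩))⟩
      · exact absurd (h j) hx
    · intro x hx
      by_cases hpx : pr q w x ∈ S.image (pr q w)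
      · rw [mem_image] at hpx
        obtain ⟨y, hy, he⟩ := hpx
        refine ⟨y, hy, ?_, Or.inl he.symm⟩
        rintro rfl
        exact hx hy
      · obtain ⟨u, hu, hadj⟩ := h _ hpx
        rw [mem_image] at hu
        obtain ⟨y, hy, rfl⟩ := hu
        refine ⟨y, hy, ?_, Or.inr (Or.inl hadj)⟩
        rintro rfl
        exact hx hy

theorem blow_rel [Fintype V] (G : SimpleGraph V) (p q : ℕ) (w : V) (m' m : ℕ → ℕ)
    (h : Rel G p m') (hq : 1 ≤ q) (hqp : q ≤ p) (hm : ∀ k, 1 ≤ k → k ≤ q → m k = m' k)
    (hm2 : ∀ k, q < k → m k = q) : Rel (blow G q w) q m := by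
  classical
  obtain ⟨⟨X0, hX0, hX0c⟩, hmin, hk⟩ := h
  set D : Finset ((V × Fin q) ⊕ Fin q) := univ.map Function.Embedding.inr with hD
  have hDc : D.card = q := by rw [hD, card_map, card_univ, Fintype.card_fin]
  have hDm : ∀ x, x ∈ D ↔ ∃ j, x = Sum.inr j := by
    intro x
    rw [hD, mem_map]
    constructor
    · rintro ⟨j, _, rfl⟩; exact ⟨j, rfl⟩
    · rintro ⟨j, rfl⟩; exact ⟨j, mem_univ _, rfl⟩
  have hDdom : Dominating (blow G q w) D := by
    rw [blow_dom]
    left
    intro j
    exact (hDm _).2 ⟨j, rfl⟩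
  have hDsub : ∀ S : Finset ((V × Fin q) ⊕ Fin q), (∀ j, Sum.inr j ∈ S) → D ⊆ S := by
    intro S hS x hx
    obtain ⟨j, rfl⟩ := (hDm x).1 hx
    exact hS j
  have hlow : ∀ S, Dominating (blow G q w) S → q ≤ S.card := by
    intro S hS
    rw [blow_dom] at hS
    rcases hS with h | h
    · have := card_le_card (hDsub S h)
      omega
    · have h1 := hmin _ h
      have h2 : (S.image (pr q w)).card ≤ S.card := card_image_le
      omega
  refine ⟨⟨D, hDdom, hDc⟩, hlow, ?_⟩
  intro k hk1
  by_cases hkq : q < k
  · rw [hm2 k hkq]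
    exact ⟨⟨D, min_km _ q k D hDdom hDc hlow, hDc⟩,
      fun X hX => km_large _ q k D hDdom hDc hkq X hX⟩
  push Not at hkq
  rw [hm k hk1 hkq]
  obtain ⟨⟨X1, hX1, hX1c⟩, hup⟩ := hk k hk1
  let j0 : Fin q := ⟨0, hq⟩
  let emb : V ↪ (V × Fin q) ⊕ Fin q := ⟨fun v => Sum.inl (v, j0), by
    intro a b hab
    have := Sum.inl_injective hab
    rw [Prod.mk.injEq] at this
    exact this.1⟩
  have hemb : ∀ v, emb v = Sum.inl (v, j0) := fun v => rfl
  have hpremb : ∀ v, pr q w (emb v) = v := fun v => rfl
  constructor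
  · refine ⟨X1.map emb, ⟨?_, ?_⟩, by rw [card_map, hX1c]⟩
    · rw [blow_dom]
      right
      refine dom_mono hX1.1 ?_
      intro v hv
      rw [mem_image]
      exact ⟨emb v, mem_map_of_mem _ hv, rfl⟩
    · intro U R hU hUk hR hdom
      rw [blow_dom] at hdom
      rcases hdom with h | h
      · have hDR : D ⊆ R := by
          intro x hx
          obtain ⟨j, rfl⟩ := (hDm x).1 hx
          have := h j
          rw [mem_union, mem_sdiff, mem_map] at this
          rcases this with ⟨⟨v, _, he⟩, _⟩ | h'
          · rw [hemb] at he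
            exact absurd he (by simp)
          · exact h'
        have := card_le_card hDR
        omega
      · have hUinj : Set.InjOn (pr q w) (U : Set ((V × Fin q) ⊕ Fin q)) := by
          intro a ha b hb hab
          have ha' := hU (mem_coe.1 ha)
          have hb' := hU (mem_coe.1 hb)
          rw [mem_map] at ha' hb'
          obtain ⟨a', _, rfl⟩ := ha'
          obtain ⟨b', _, rfl⟩ := hb'
          rw [hpremb, hpremb] at hab
          rw [hab]
        have hUc : (U.image (pr q w)).card = U.card := card_image_of_injOn hUinj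
        have hRc : (R.image (pr q w)).card ≤ R.card := card_image_le
        refine hX1.2 (U.image (pr q w)) (R.image (pr q w)) ?_ (by omega) (by omega)
          (dom_mono h ?_)
        · intro v hv
          rw [mem_image] at hv
          obtain ⟨x, hx, rfl⟩ := hv
          have hx' := hU hx
          rw [mem_map] at hx'
          obtain ⟨v', hv', rfl⟩ := hx'
          rw [hpremb]
          exact hv'
        · intro v hv
          rw [mem_image] at hv
          obtain ⟨x, hx, rfl⟩ := hv
          rw [mem_union, mem_sdiff, mem_map] at hx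
          rw [mem_union, mem_sdiff]
          rcases hx with ⟨⟨v', hv', rfl⟩, hxU⟩ | hxR
          · left
            refine ⟨by rw [hpremb]; exact hv', fun h' => hxU ?_⟩
            rw [mem_image] at h'
            obtain ⟨y, hy, he⟩ := h'
            have hy' := hU hy
            rw [mem_map] at hy'
            obtain ⟨v'', _, rfl⟩ := hy'
            rw [hpremb, hpremb] at he
            rw [← he]
            exact hy
          · right
            exact mem_image_of_mem _ hxR
  · intro S hS
    obtain ⟨hS1, hS2⟩ := hS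
    rw [blow_dom] at hS1
    rcases hS1 with h | h
    · have hSD : S ⊆ D := by
        intro x hx
        by_contra hcon
        refine hS2 {x} ∅ (by simpa using hx) (by simpa using hk1) (by simp) ?_
        rw [blow_dom]
        left
        intro j
        rw [mem_union, mem_sdiff, mem_singleton]
        left
        refine ⟨h j, ?_⟩
        rintro rfl
        exact hcon ((hDm _).2 ⟨j, rfl⟩)
      have h1 := card_le_card hSD
      have h2 := hmin _ hX1.1
      omega
    · have hinj : Set.InjOn (pr q w) (S : Set ((V × Fin q) ⊕ Fin q)) := by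
        intro x hx y hy hxy
        by_contra hne
        have hx := mem_coe.1 hx
        have hy := mem_coe.1 hy
        refine hS2 {x} ∅ (by simpa using hx) (by simpa using hk1) (by simp) ?_
        rw [blow_dom]
        right
        refine dom_mono h ?_
        intro v hv
        rw [mem_image] at hv ⊢
        obtain ⟨z, hz, rfl⟩ := hv
        by_cases hzx : z = x
        · refine ⟨y, ?_, by rw [hzx, hxy]⟩
          rw [mem_union, mem_sdiff, mem_singleton]
          exact Or.inl ⟨hy, fun h => hne h.symm⟩
        · refine ⟨z, ?_, rfl⟩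
          rw [mem_union, mem_sdiff, mem_singleton]
          exact Or.inl ⟨hz, hzx⟩
      rw [← card_image_of_injOn hinj]
      apply hup
      refine ⟨h, fun U' R' hU' hUk' hR' hdom => ?_⟩
      have hUim : (S.filter (fun x => pr q w x ∈ U')).image (pr q w) = U' := by
        ext v
        rw [mem_image]
        constructor
        · rintro ⟨x, hx, rfl⟩
          exact (mem_filter.1 hx).2
        · intro hv
          have := hU' hv
          rw [mem_image] at this
          obtain ⟨x, hx, rfl⟩ := this
          exact ⟨x, mem_filter.2 ⟨hx, hv⟩, rfl⟩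
      have hUc : (S.filter (fun x => pr q w x ∈ U')).card = U'.card := by
        rw [← card_image_of_injOn (hinj.mono (by
          intro x hx
          exact mem_coe.2 (mem_filter.1 (mem_coe.1 hx)).1)), hUim]
      refine hS2 (S.filter (fun x => pr q w x ∈ U')) (R'.map emb) (filter_subset _ _)
        (by omega) (by rw [card_map]; omega) ?_
      rw [blow_dom]
      right
      refine dom_mono hdom ?_
      intro v hv
      rw [mem_union, mem_sdiff, mem_image] at hv
      rw [mem_image]
      rcases hv with ⟨⟨x, hx, rfl⟩, hxU⟩ | hv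
      · refine ⟨x, ?_, rfl⟩
        rw [mem_union, mem_sdiff, mem_filter]
        exact Or.inl ⟨hx, fun h' => hxU h'.2⟩
      · exact ⟨emb v, mem_union.2 (Or.inr (mem_map_of_mem _ hv)), rfl⟩

end blow

/-- Every admissible sequence is realised. -/
theorem realise (r : ℕ) : ∀ m : ℕ → ℕ, (∀ k, 1 ≤ k → m (k + 1) ≤ m k) → (∀ k, r < k → m k = r) →
    ∃ (V : Type) (_ : Fintype V) (_ : DecidableEq V) (G : SimpleGraph V), Rel G r m := by
  induction r with
  | zero =>
    intro m _ hm
    refine ⟨Fin 0, inferInstance, inferInstance, ⊥, ⟨∅, fun v => v.elim0, rfl⟩,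
      fun X _ => Nat.zero_le _, fun k hk => ?_⟩
    rw [hm k (by omega)]
    refine ⟨⟨∅, ⟨fun v => v.elim0, ?_⟩, rfl⟩, ?_⟩
    · intro U R _ _ hR
      have : U = ∅ := by ext v; exact v.elim0
      rw [this] at hR
      simp at hR
    · intro X _
      have : X = ∅ := by ext v; exact v.elim0
      rw [this]
      simp
  | succ r ih =>
    intro m hmono hm
    have hp : r + 1 ≤ m (r + 1) := by
      have h1 := hmono (r + 1) (by omega)
      rw [hm (r + 1 + 1) (by omega)] at h1
      exact h1
    obtain ⟨p, hpdef⟩ : ∃ p, p = m (r + 1) := ⟨_, rfl⟩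
    rw [← hpdef] at hp
    have hge : ∀ k, 1 ≤ k → k ≤ r + 1 → p ≤ m k := by
      intro k hk1 hk2
      have : ∀ i, k + i ≤ r + 1 → m (k + i) ≤ m k := by
        intro i
        induction i with
        | zero => intro _; exact le_rfl
        | succ i ihi =>
          intro hi
          exact (hmono (k + i) (by omega)).trans (ihi (by omega))
      have h1 := this (r + 1 - k) (by omega)
      rw [show k + (r + 1 - k) = r + 1 by omega] at h1
      omega
    let m0 : ℕ → ℕ := fun k => if k ≤ r then m k - (p - r) else r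
    obtain ⟨V, hV1, hV2, G, hG⟩ := ih m0 (by
      intro k hk
      by_cases h1 : k + 1 ≤ r
      · have h2 : k ≤ r := by omega
        simp only [m0, if_pos h1, if_pos h2]
        have := hmono k hk
        omega
      · by_cases h2 : k ≤ r
        · simp only [m0, if_neg h1, if_pos h2]
          have := hge k hk (by omega)
          omega
        · simp only [m0, if_neg h1, if_neg h2]
          exact le_rfl) (by
      intro k hk
      have : ¬ k ≤ r := by omega
      simp only [m0, if_neg this])
    have h2 := addIso_rel G r m0 (p - r) hG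
    have w : V ⊕ Fin (p - r) := Sum.inr ⟨0, by omega⟩
    refine ⟨_, inferInstance, inferInstance, blow (addIso G (p - r)) (r + 1) w,
      blow_rel (addIso G (p - r)) (r + (p - r)) (r + 1) w _ m h2 (by omega) (by omega) ?_ hm⟩
    intro k hk1 hk2
    by_cases h3 : k ≤ r
    · simp only [m0, if_pos h3]
      have := hge k hk1 (by omega)
      omega
    · have h4 : k = r + 1 := by omega
      simp only [m0, if_neg h3]
      rw [h4, ← hpdef]
      omega

theorem rel_gamma {V : Type} [Fintype V] [DecidableEq V] (G : SimpleGraph V) (r : ℕ) (m : ℕ → ℕ)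
    (h : Rel G r m) : gamma G = r ∧ ∀ k, 1 ≤ k → Gam G k = m k := by
  obtain ⟨⟨X0, hX0, hX0c⟩, hmin, hk⟩ := h
  refine ⟨le_antisymm (Nat.sInf_le ⟨X0, hX0, hX0c⟩) ?_, fun k hk1 => ?_⟩
  · have hne : {k | ∃ X : Finset V, Dominating G X ∧ X.card = k}.Nonempty := ⟨r, X0, hX0, hX0c⟩
    apply le_csInf hne
    rintro b ⟨X, hX, rfl⟩
    exact hmin X hX
  · obtain ⟨⟨X1, hX1, hX1c⟩, hup⟩ := hk k hk1
    apply le_antisymm
    · have hne : {m | ∃ X : Finset V, KMDS G k X ∧ X.card = m}.Nonempty :=
        ⟨m k, X1, (kmds_iff _ _ _).2 hX1, hX1c⟩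
      apply csSup_le hne
      rintro b ⟨X, hX, rfl⟩
      exact hup X ((kmds_iff _ _ _).1 hX)
    · apply le_csSup
      · refine ⟨m k, ?_⟩
        rintro b ⟨X, hX, rfl⟩
        exact hup X ((kmds_iff _ _ _).1 hX)
      · exact ⟨X1, (kmds_iff _ _ _).2 hX1, hX1c⟩

/-- **MP_e4a648_co, Q1.** For `r ≥ 1`, a sequence `m 1, …, m r` is a domination sequence if and
only if `m 1 ≥ m 2 ≥ ⋯ ≥ m r ≥ r`. -/
theorem result (r : ℕ) (hr : 1 ≤ r) (m : ℕ → ℕ) :
    IsDominationSequence r m ↔ (∀ k, 1 ≤ k → k < r → m (k + 1) ≤ m k) ∧ r ≤ m r := by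
  constructor
  · rintro ⟨V, hV1, hV2, G, hg, hG⟩
    have hne : {k | ∃ X : Finset V, Dominating G X ∧ X.card = k}.Nonempty :=
      ⟨_, univ, fun v hv => absurd (mem_univ v) hv, rfl⟩
    obtain ⟨X0, hX0, hX0c⟩ := Nat.sInf_mem hne
    have hmin : ∀ X : Finset V, Dominating G X → r ≤ X.card := by
      intro X hX
      rw [← hg]
      exact Nat.sInf_le ⟨X, hX, rfl⟩
    have hX0c' : X0.card = r := hX0c.trans hg
    have hbdd : ∀ k, BddAbove {m | ∃ X : Finset V, KMDS G k X ∧ X.card = m} := by
      intro k
      refine ⟨Fintype.card V, ?_⟩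
      rintro b ⟨X, _, rfl⟩
      exact card_le_univ X
    have hmem : ∀ k, KMDS G k X0 := fun k =>
      (kmds_iff _ _ _).2 (min_km G r k X0 hX0 hX0c' hmin)
    refine ⟨fun k hk1 hkr => ?_, ?_⟩
    · rw [← hG k hk1 (by omega), ← hG (k + 1) (by omega) (by omega)]
      have hne' : {m | ∃ X : Finset V, KMDS G (k + 1) X ∧ X.card = m}.Nonempty :=
        ⟨_, X0, hmem _, rfl⟩
      apply csSup_le_csSup (hbdd k) hne'
      rintro b ⟨X, hX, rfl⟩
      refine ⟨X, ⟨hX.1, fun ℓ h1 h2 U R hU hUc hRc => ?_⟩, rfl⟩
      exact hX.2 ℓ h1 (by omega) U R hU hUc hRc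
    · rw [← hG r hr le_rfl, ← hX0c']
      exact le_csSup (hbdd _) ⟨X0, hmem _, rfl⟩
  · rintro ⟨hmono, hmr⟩
    obtain ⟨V, hV1, hV2, G, hG⟩ := realise r (fun k => if k ≤ r then m k else r) (by
      intro k hk
      by_cases h1 : k + 1 ≤ r
      · have h2 : k ≤ r := by omega
        simp only [if_pos h1, if_pos h2]
        exact hmono k hk (by omega)
      · by_cases h2 : k ≤ r
        · simp only [if_neg h1, if_pos h2]
          have : k = r := by omega
          rw [this]; exact hmr
        · simp only [if_neg h1, if_neg h2]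
          exact le_rfl) (by
      intro k hk
      have : ¬ k ≤ r := by omega
      simp only [if_neg this])
    obtain ⟨h1, h2⟩ := rel_gamma G r _ hG
    refine ⟨V, hV1, hV2, G, h1, fun k hk1 hkr => ?_⟩
    rw [h2 k hk1]
    simp only [if_pos hkr]

end Pool.Agent.Results.MP_e4a648_co.AllSequences
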